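import Pool.Agent.H74.G.R_seed8.TH80.OMS.Step

/-!
# Nondegenerate periodic points in families of diffeomorphisms
-/

set_option autoImplicit false
set_option linter.unusedSectionVars false

open scoped Manifold ContDiff Topology NNReal
open Filter Set Metric

universe u

namespace Pool.Agent.TH80.OMS

open Pool.Agent.H718R2.G Pool.Agent.W564.SC Pool.Agent.TH290.CL Pool.Agent.TH80.CLX

section lin

theorem det_ne_zero_iff {n : ℕ} (L : V n →L[ℝ] V n) :
    (L - ContinuousLinearMap.id ℝ (V n)).det ≠ 0 ↔ ∀ w, L w = w → w = 0 := by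
  constructor
  · intro h w hw
    have h1 : ((L - ContinuousLinearMap.id ℝ (V n)).toContinuousLinearEquivOfDetNeZero h) w =
        0 := by
      show (L - ContinuousLinearMap.id ℝ (V n)) w = 0
      show L w - w = 0
      rw [hw, sub_self]
    exact ((L - ContinuousLinearMap.id ℝ (V n)).toContinuousLinearEquivOfDetNeZero
      h).injective (h1.trans (map_zero _).symm)
  · intro h hd
    have h1 := LinearMap.bot_lt_ker_of_det_eq_zero (f :=
      ((L - ContinuousLinearMap.id ℝ (V n) : V n →L[ℝ] V n) : V n →ₗ[ℝ] V n)) hd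
    rw [bot_lt_iff_ne_bot, Ne, Submodule.eq_bot_iff] at h1
    apply h1
    intro w hw
    apply h
    rw [LinearMap.mem_ker] at hw
    have h2 : L w - w = 0 := hw
    exact sub_eq_zero.1 h2

theorem fderiv_joint {P E E' : Type*} [NormedAddCommGroup P] [NormedSpace ℝ P]
    [NormedAddCommGroup E] [NormedSpace ℝ E] [NormedAddCommGroup E'] [NormedSpace ℝ E']
    {Φ : P × E → E'} {p : P} {u : E} (h : ContDiffAt ℝ 1 Φ (p, u)) :
    ContinuousAt (fun q : P × E => fderiv ℝ (fun v => Φ (q.1, v)) q.2) (p, u) ∧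
      fderiv ℝ (fun v => Φ (p, v)) u = (fderiv ℝ Φ (p, u)).comp (ContinuousLinearMap.inr ℝ P E) := by
  have h1 : ∀ q : P × E, DifferentiableAt ℝ Φ q →
      fderiv ℝ (fun v => Φ (q.1, v)) q.2 =
        (fderiv ℝ Φ q).comp (ContinuousLinearMap.inr ℝ P E) := by
    intro q hq
    have h2 : HasFDerivAt (fun v : E => (q.1, v)) (ContinuousLinearMap.inr ℝ P E) q.2 :=
      hasFDerivAt_prodMk_right _ _
    have h3 : HasFDerivAt Φ (fderiv ℝ Φ (q.1, q.2)) (q.1, q.2) := hq.hasFDerivAt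
    exact (h3.comp q.2 h2).fderiv
  refine ⟨?_, h1 (p, u) (h.differentiableAt (by norm_num))⟩
  have h4 : ContinuousAt (fun q : P × E => (fderiv ℝ Φ q).comp (ContinuousLinearMap.inr ℝ P E))
      (p, u) :=
    ((h.fderiv_right (m := 0) (by norm_num)).continuousAt).clm_comp continuousAt_const
  refine h4.congr ?_
  filter_upwards [h.eventually (by simp)] with q hq
  exact (h1 q (hq.differentiableAt (by norm_num))).symm

end lin

variable {n : ℕ} {N : Type u} [TopologicalSpace N] [ChartedSpace (V n) N]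

/-- `x` is nondegenerate for `g^[k]`: in some chart, `D(g^k)(x) - 1` is invertible. -/
def ND (n : ℕ) {N : Type u} [TopologicalSpace N] [ChartedSpace (V n) N] (k : ℕ) (g : N → N)
    (x : N) : Prop :=
  ∃ ψ ∈ IsManifold.maximalAtlas (𝓡 n) ∞ N, x ∈ ψ.source ∧
    (fderiv ℝ (fun u => ψ (g^[k] (ψ.symm u))) (ψ x) - ContinuousLinearMap.id ℝ (V n)).det ≠ 0

/-- all fixed points of `g^[k]` in `A` are nondegenerate -/
def Good (n : ℕ) {N : Type u} [TopologicalSpace N] [ChartedSpace (V n) N] (k : ℕ) (g : N → N)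
    (A : Set N) : Prop := ∀ x ∈ A, g^[k] x = x → ND n k g x

theorem joint_iter {r : ℕ∞} {j : ℕ} {H : V j → DiffM n N r} (hH : IsFam n N r H) (k : ℕ) (y : N) :
    ContMDiffAt ((𝓡 j).prod (𝓡 n)) (𝓡 n) r (fun q : V j × N => (H q.1)^[k] q.2)
      ((0 : V j), y) := by
  induction k with
  | zero => exact contMDiffAt_snd
  | succ k ih =>
    have e : (fun q : V j × N => (H q.1)^[k + 1] q.2) =
        (fun q : V j × N => H q.1 q.2) ∘ (fun q => (q.1, (H q.1)^[k] q.2)) := by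
      funext q
      exact Function.iterate_succ_apply' _ _ _
    rw [e]
    exact ContMDiffAt.comp _ (hH _) (contMDiffAt_fst.prodMk ih)

variable [IsManifold (𝓡 n) ∞ N]

theorem joint_chart {r : ℕ∞} (hr : 1 ≤ r) {j : ℕ} {H : V j → DiffM n N r} (hH : IsFam n N r H)
    (k : ℕ) {ψ : OpenPartialHomeomorph N (V n)} (hψ : ψ ∈ IsManifold.maximalAtlas (𝓡 n) ∞ N)
    {x : N} (hx : x ∈ ψ.source) (hx' : (H 0)^[k] x ∈ ψ.source) :
    ContDiffAt ℝ 1 (fun q : V j × V n => ψ ((H q.1)^[k] (ψ.symm q.2))) ((0 : V j), ψ x) := by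
  have hr' : (1 : WithTop ℕ∞) ≤ r := by exact_mod_cast hr
  rw [← contMDiffAt_iff_contDiffAt]
  have h1 : ContMDiffAt 𝓘(ℝ, V j × V n) (𝓡 j) 1 (fun q : V j × V n => q.1)
      ((0 : V j), ψ x) := contDiffAt_fst.contMDiffAt
  have h2 : ContMDiffAt 𝓘(ℝ, V j × V n) (𝓡 n) 1 (fun q : V j × V n => q.2)
      ((0 : V j), ψ x) := contDiffAt_snd.contMDiffAt
  have h3 : ContMDiffAt (𝓡 n) (𝓡 n) 1 ψ.symm (ψ x) :=
    ((contMDiffOn_symm_of_mem_maximalAtlas hψ _ (ψ.map_source hx)).contMDiffAt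
      (ψ.open_target.mem_nhds (ψ.map_source hx))).of_le (by exact_mod_cast le_top)
  have h4 : ContMDiffAt 𝓘(ℝ, V j × V n) (𝓡 n) 1 (fun q : V j × V n => ψ.symm q.2)
      ((0 : V j), ψ x) :=
    ContMDiffAt.comp (g := ψ.symm) (f := fun q : V j × V n => q.2) _ h3 h2
  have h5 : ContMDiffAt 𝓘(ℝ, V j × V n) ((𝓡 j).prod (𝓡 n)) 1
      (fun q : V j × V n => (q.1, ψ.symm q.2)) ((0 : V j), ψ x) := h1.prodMk h4
  have h6 : ContMDiffAt ((𝓡 j).prod (𝓡 n)) (𝓡 n) 1 (fun q : V j × N => (H q.1)^[k] q.2)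
      ((0 : V j), ψ.symm (ψ x)) := (joint_iter hH k _).of_le hr'
  have h7 : ContMDiffAt 𝓘(ℝ, V j × V n) (𝓡 n) 1
      (fun q : V j × V n => (H q.1)^[k] (ψ.symm q.2)) ((0 : V j), ψ x) :=
    ContMDiffAt.comp (g := fun q : V j × N => (H q.1)^[k] q.2)
      (f := fun q : V j × V n => (q.1, ψ.symm q.2)) _ h6 h5
  have h8 : ContMDiffAt (𝓡 n) (𝓡 n) 1 ψ ((H 0)^[k] (ψ.symm (ψ x))) := by
    rw [ψ.left_inv hx]
    exact ((contMDiffOn_of_mem_maximalAtlas hψ _ hx').contMDiffAt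
      (ψ.open_source.mem_nhds hx')).of_le (by exact_mod_cast le_top)
  exact ContMDiffAt.comp (g := ψ) (f := fun q : V j × V n => (H q.1)^[k] (ψ.symm q.2)) _ h8 h7

variable [T2Space N]

theorem notfix_open {r : ℕ∞} {j : ℕ} {H : V j → DiffM n N r}
    (hH : IsFam n N r H) (k : ℕ) (x : N) (hx : (H 0)^[k] x ≠ x) :
    ∀ᶠ q : V j × N in 𝓝 ((0 : V j), x), (H q.1)^[k] q.2 ≠ q.2 := by
  have h1 : ContinuousAt (fun q : V j × N => ((H q.1)^[k] q.2, q.2)) ((0 : V j), x) :=
    (joint_iter hH k x).continuousAt.prodMk continuousAt_snd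
  have h2 : IsOpen {p : N × N | p.1 ≠ p.2} := isOpen_ne_fun continuous_fst continuous_snd
  exact h1.eventually (h2.mem_nhds hx)

theorem nd_open {r : ℕ∞} (hr : 1 ≤ r) {j : ℕ} {H : V j → DiffM n N r}
    (hH : IsFam n N r H) (k : ℕ) (x : N) (hx : (H 0)^[k] x = x → ND n k (H 0) x) :
    ∀ᶠ q : V j × N in 𝓝 ((0 : V j), x), (H q.1)^[k] q.2 = q.2 → ND n k (H q.1) q.2 := by
  by_cases hf : (H 0)^[k] x = x
  · obtain ⟨ψ, hψ, hxψ, hdet⟩ := hx hf
    have h1 := joint_chart hr hH k hψ hxψ (by rw [hf]; exact hxψ)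
    have h2 := (fderiv_joint h1).1
    have h3 : ContinuousAt (fun q : V j × N => (q.1, ψ q.2)) ((0 : V j), x) :=
      continuousAt_fst.prodMk (ContinuousAt.comp (g := ψ) (f := fun q : V j × N => q.2)
        (ψ.continuousAt hxψ) continuousAt_snd)
    have h4 := ContinuousAt.comp (x := ((0 : V j), x)) (f := fun q : V j × N => (q.1, ψ q.2)) h2 h3
    have h5 : ContinuousAt (fun q : V j × N =>
        (fderiv ℝ (fun u => ψ ((H q.1)^[k] (ψ.symm u))) (ψ q.2) -
          ContinuousLinearMap.id ℝ (V n)).det) ((0 : V j), x) := by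
      have h6 : Continuous (fun L : V n →L[ℝ] V n =>
          (L - ContinuousLinearMap.id ℝ (V n)).det) :=
        ContinuousLinearMap.continuous_det.comp (continuous_id.sub continuous_const)
      exact h6.continuousAt.comp h4
    filter_upwards [h5.eventually_ne hdet,
      (continuousAt_snd (X := V j) (Y := N) (p := ((0 : V j), x))).eventually
        (ψ.open_source.mem_nhds hxψ)]
      with q hq1 hq2 _
    exact ⟨ψ, hψ, hq2, hq1⟩
  · filter_upwards [notfix_open hH k x hf] with q hq h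
    exact absurd h hq

theorem fix_unique {r : ℕ∞} (hr : 1 ≤ r) {j : ℕ} {H : V j → DiffM n N r}
    (hH : IsFam n N r H) (k : ℕ) (x : N) (hf : (H 0)^[k] x = x) (hnd : ND n k (H 0) x) :
    ∃ W ∈ 𝓝 x, ∀ᶠ s in 𝓝 (0 : V j), ∀ y ∈ W, ∀ z ∈ W, (H s)^[k] y = y → (H s)^[k] z = z →
      y = z := by
  obtain ⟨ψ, hψ, hxψ, hdet⟩ := hnd
  have h1 := joint_chart hr hH k hψ hxψ (by rw [hf]; exact hxψ)
  set Φ : V j × V n → V n := fun q => ψ ((H q.1)^[k] (ψ.symm q.2)) with hΦ
  have h2 := (fderiv_joint h1).2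
  have h3 : HasStrictFDerivAt Φ (fderiv ℝ Φ ((0 : V j), ψ x)) ((0 : V j), ψ x) :=
    h1.hasStrictFDerivAt (by norm_num)
  have h4 : HasStrictFDerivAt (fun q : V j × V n => (q.1, Φ q - q.2))
      ((ContinuousLinearMap.fst ℝ (V j) (V n)).prod
        (fderiv ℝ Φ ((0 : V j), ψ x) - ContinuousLinearMap.snd ℝ (V j) (V n)))
      ((0 : V j), ψ x) :=
    hasStrictFDerivAt_fst.prodMk (h3.sub hasStrictFDerivAt_snd)
  set L : (V j × V n) →L[ℝ] (V j × V n) := (ContinuousLinearMap.fst ℝ (V j) (V n)).prod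
        (fderiv ℝ Φ ((0 : V j), ψ x) - ContinuousLinearMap.snd ℝ (V j) (V n)) with hL
  have hinj : Function.Injective (L : (V j × V n) →ₗ[ℝ] (V j × V n)) := by
    rw [← LinearMap.ker_eq_bot, Submodule.eq_bot_iff]
    rintro ⟨w1, w2⟩ hw
    rw [LinearMap.mem_ker] at hw
    have e1 : w1 = 0 := congrArg Prod.fst hw
    have e2 : fderiv ℝ Φ ((0 : V j), ψ x) (w1, w2) - w2 = 0 := congrArg Prod.snd hw
    rw [e1] at e2
    have e3 : w2 = 0 := by
      apply (det_ne_zero_iff _).1 hdet w2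
      show fderiv ℝ (fun v => Φ ((0 : V j), v)) (ψ x) w2 = w2
      rw [h2]
      exact sub_eq_zero.1 e2
    rw [e1, e3]
    rfl
  let e : (V j × V n) ≃L[ℝ] (V j × V n) :=
    (LinearEquiv.ofInjectiveEndo (L : (V j × V n) →ₗ[ℝ] (V j × V n)) hinj).toContinuousLinearEquiv
  have he : (e : (V j × V n) →L[ℝ] (V j × V n)) = L := by
    ext w <;> rfl
  rw [← he] at h4
  have hsrc := h4.mem_toOpenPartialHomeomorph_source
  have hinjOn := (h4.toOpenPartialHomeomorph (fun q : V j × V n => (q.1, Φ q - q.2))).injOn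
  have hS := (h4.toOpenPartialHomeomorph
    (fun q : V j × V n => (q.1, Φ q - q.2))).open_source.mem_nhds hsrc
  rw [nhds_prod_eq] at hS
  obtain ⟨S1, hS1, S2, hS2, hS12⟩ := Filter.mem_prod_iff.1 hS
  refine ⟨ψ.source ∩ ψ ⁻¹' S2, inter_mem (ψ.open_source.mem_nhds hxψ)
    ((ψ.continuousAt hxψ).preimage_mem_nhds hS2), ?_⟩
  filter_upwards [hS1] with s hs y hy z hz hfy hfz
  have k1 : ∀ y ∈ ψ.source, (H s)^[k] y = y → Φ (s, ψ y) - ψ y = 0 := by
    intro y hy hfy
    show ψ ((H s)^[k] (ψ.symm (ψ y))) - ψ y = 0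
    rw [ψ.left_inv hy, hfy, sub_self]
  have k2 : ((s, Φ (s, ψ y) - ψ y) : V j × V n) = (s, Φ (s, ψ z) - ψ z) := by
    rw [k1 y hy.1 hfy, k1 z hz.1 hfz]
  have m1 : ((s, ψ y) : V j × V n) ∈ S1 ×ˢ S2 := ⟨hs, hy.2⟩
  have m2 : ((s, ψ z) : V j × V n) ∈ S1 ×ˢ S2 := ⟨hs, hz.2⟩
  have k3 := hinjOn (hS12 m1) (hS12 m2) k2
  exact ψ.injOn hy.1 hz.1 (congrArg Prod.snd k3)

/-- the constant family -/
theorem const_fam {r : ℕ∞} (j : ℕ) (G : DiffM n N r) : IsFam n N r (fun _ : V j => G) := by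
  intro y
  exact (G.contMDiff.comp contMDiff_snd).contMDiffAt

variable [CompactSpace N]

theorem finite_of_good {r : ℕ∞} (hr : 1 ≤ r) (G : DiffM n N r) (k : ℕ) (h : Good n k G univ) :
    {x | G^[k] x = x}.Finite := by
  have h1 : ({x | G^[k] x = x} ∩ univ).Finite := by
    refine isCompact_univ.induction_on (p := fun W : Set N => ({x | G^[k] x = x} ∩ W).Finite)
      ?_ ?_ ?_ ?_
    · rw [inter_empty]
      exact finite_empty
    · intro s t hst ht
      exact ht.subset (inter_subset_inter_right _ hst)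
    · intro s t hs ht
      rw [inter_union_distrib_left]
      exact hs.union ht
    · intro x _
      rw [nhdsWithin_univ]
      by_cases hx : G^[k] x = x
      · obtain ⟨W, hW, hW'⟩ := fix_unique hr (const_fam 0 G) k x hx (h x (mem_univ _) hx)
        refine ⟨W, hW, ?_⟩
        have h2 := hW'.self_of_nhds
        apply Set.Subsingleton.finite
        rintro y ⟨hy1, hy2⟩ z ⟨hz1, hz2⟩
        exact h2 y hy2 z hz2 hy1 hz1
      · have h2 : {y : N | G^[k] y ≠ y} ∈ 𝓝 x :=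
          (isOpen_ne_fun (G.continuous.iterate k) continuous_id).mem_nhds hx
        refine ⟨_, h2, ?_⟩
        have e : {x | G^[k] x = x} ∩ {y : N | G^[k] y ≠ y} = ∅ := by
          ext y
          simp
        rw [e]
        exact finite_empty
  rwa [inter_univ] at h1

/-- predicates which are stable under small perturbations in families -/
def FO (n : ℕ) (N : Type u) [TopologicalSpace N] [ChartedSpace (V n) N] (r : ℕ∞)
    (Q : DiffM n N r → Prop) : Prop :=
  ∀ (j : ℕ) (H : V j → DiffM n N r), IsFam n N r H → Q (H 0) → ∀ᶠ s in 𝓝 (0 : V j), Q (H s)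

theorem FO.and {r : ℕ∞} {Q Q' : DiffM n N r → Prop} (h : FO n N r Q) (h' : FO n N r Q') :
    FO n N r (fun G => Q G ∧ Q' G) := by
  intro j H hH h0
  exact (h j H hH h0.1).and (h' j H hH h0.2)

theorem FO.all {r : ℕ∞} {ι : Type*} (S : Set ι) (hS : S.Finite) {Q : ι → DiffM n N r → Prop}
    (h : ∀ i ∈ S, FO n N r (Q i)) : FO n N r (fun G => ∀ i ∈ S, Q i G) := by
  intro j H hH h0
  rw [Filter.eventually_all_finite hS]
  intro i hi
  exact h i hi j H hH (h0 i hi)

theorem FO.good {r : ℕ∞} (hr : 1 ≤ r) (k : ℕ) {A : Set N} (hA : IsCompact A) :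
    FO n N r (fun G => Good n k G A) := by
  intro j H hH h0
  exact hA.eventually_forall_of_forall_eventually (P := fun (s : V j) (x : N) =>
    (H s)^[k] x = x → ND n k (H s) x) (fun x hx => nd_open hr hH k x (h0 x hx))

theorem FO.maps {r : ℕ∞} (k : ℕ) {A O : Set N} (hA : IsCompact A) (hO : IsOpen O) :
    FO n N r (fun G => ∀ x ∈ A, G^[k] x ∈ O) := by
  intro j H hH h0
  exact hA.eventually_forall_of_forall_eventually (P := fun (s : V j) (x : N) =>
    (H s)^[k] x ∈ O) (fun x hx =>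
      (joint_iter hH k x).continuousAt.eventually (hO.mem_nhds (h0 x hx)))

theorem FO.mem {r : ℕ∞} (hr : 1 ≤ r) {U : Set (DiffM n N r)} (hU : IsOpen[strongTop n N r] U)
    (z : N) : FO n N r (fun G => G ∈ U) := by
  intro j H hH h0
  obtain ⟨κ, hκ, h⟩ := fam_mem r hr H hH z U hU h0
  rw [Metric.eventually_nhds_iff]
  exact ⟨κ, hκ, fun s hs => h s (by rwa [dist_zero_right] at hs)⟩

/-- the fixed points of `(H s)^[k]` do not change if those of `(H 0)^[k]` are nondegenerate and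
stay fixed -/
theorem fix_const {r : ℕ∞} (hr : 1 ≤ r) {j : ℕ} {H : V j → DiffM n N r} (hH : IsFam n N r H)
    (k : ℕ) (h : Good n k (H 0) univ)
    (hfix : ∀ᶠ s in 𝓝 (0 : V j), ∀ x, (H 0)^[k] x = x → (H s)^[k] x = x) :
    ∀ᶠ s in 𝓝 (0 : V j), ∀ x, (H s)^[k] x = x → (H 0)^[k] x = x := by
  have h1 := isCompact_univ.eventually_forall_of_forall_eventually (x₀ := (0 : V j))
    (P := fun (s : V j) (x : N) => (H s)^[k] x = x → (H 0)^[k] x = x) ?_
  · filter_upwards [h1] with s hs x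
    exact hs x (mem_univ _)
  intro x _
  by_cases hx : (H 0)^[k] x = x
  · obtain ⟨W, hW, hW'⟩ := fix_unique hr hH k x hx (h x (mem_univ _) hx)
    have e1 := (continuousAt_snd (X := V j) (Y := N) (p := ((0 : V j), x))).eventually hW
    have e2 := (continuousAt_fst (X := V j) (Y := N) (p := ((0 : V j), x))).eventually hW'
    have e3 := (continuousAt_fst (X := V j) (Y := N) (p := ((0 : V j), x))).eventually hfix
    filter_upwards [e1, e2, e3] with q h1 h2 h3 h4
    rw [h2 q.2 h1 x (mem_of_mem_nhds hW) h4 (h3 x hx), hx]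
  · filter_upwards [notfix_open hH k x hx] with q hq h
    exact absurd h hq

end Pool.Agent.TH80.OMS
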