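import Pool.Agent.H74.G.R_seed8.TH80.OMS.SymDefs

/-!
# Stable and unstable sets, cycles, points with spherical orbits: definitions
-/

set_option autoImplicit false

open scoped Manifold ContDiff Topology
open Filter Set Metric

universe u

namespace Pool.Agent.TH80.OMS

open Pool.Agent.H718R2.G Pool.Agent.TH80.CLX

/-- `W^s(x)`: the points `y` with `d(F^k x, F^k y) → 0`. (On a compact space: `(F^k x, F^k y)` is
eventually in every neighbourhood of the diagonal.) -/
def StabSet {N : Type u} [TopologicalSpace N] (F : N → N) (x : N) : Set N :=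
  {y | ∀ V : Set (N × N), IsOpen V → (∀ z, (z, z) ∈ V) → ∃ K : ℕ, ∀ k ≥ K, (F^[k] x, F^[k] y) ∈ V}

/-- The nonwandering set is finite, and there is no cycle: there are no distinct periodic orbits
`O 0, ..., O (k+1)`, cyclically ordered, with `W^u(O i) ∩ W^s(O (i+1)) ≠ ∅` for all `i`. (If `F`
satisfies Axiom A and `Ω(F)` is finite, then the basic sets are the periodic orbits.) -/
def FiniteNoCycle {n : ℕ} {N : Type u} [TopologicalSpace N] [ChartedSpace (V n) N] {r : ℕ∞}
    (F : DiffM n N r) : Prop :=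
  (Omega F).Finite ∧ ∀ (k : ℕ) (O : Fin (k + 2) → Set N), Function.Injective O →
    (∀ i, ∃ p ∈ Per F, O i = range fun j : ℕ => F^[j] p) →
    ¬ ∀ i, ∃ x ∈ O i, ∃ x' ∈ O (i + 1), (StabSet F.symm x ∩ StabSet F x').Nonempty

/-- Near the fixed point `p` the action is linear and transitive on the spheres. -/
def IsSphere (n : ℕ) (N : Type u) [TopologicalSpace N] [ChartedSpace (V n) N] {G : Type}
    (act : G → N → N) (p : N) : Prop :=
  ∃ (χ : OpenPartialHomeomorph N (V n)) (R : G → V n →ₗᵢ[ℝ] V n), LinChart n act p χ R ∧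
    ∀ u v, ‖u‖ = ‖v‖ → ∃ g, R g u = v

/-- `p` is a hyperbolic periodic sink (`c < 1`) or source (`c > 1`): for some `m ≥ 1` and some chart,
`F^m(p) = p` and `D = D(F^m)(p)` is an isometry times a constant `c ≠ 1`. -/
def IsSinkSource (n : ℕ) {N : Type u} [TopologicalSpace N] [ChartedSpace (V n) N]
    (F : N → N) (p : N) : Prop :=
  ∃ m : ℕ, 1 ≤ m ∧ F^[m] p = p ∧ ∃ ψ ∈ IsManifold.maximalAtlas (𝓡 n) ∞ N, p ∈ ψ.source ∧
    ∃ D : V n →L[ℝ] V n, HasFDerivAt (fun u => ψ (F^[m] (ψ.symm u))) D (ψ p) ∧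
    ∃ c : ℝ, c ≠ 1 ∧ ∀ w, ‖D w‖ = c * ‖w‖

end Pool.Agent.TH80.OMS
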