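import Pool.Agent.H74.G.R_seed8.TH80.OMS.KSTrans

/-!
# Periodic points of smaller period; diffeomorphisms with nondegenerate periodic points are dense
-/

set_option autoImplicit false
set_option linter.unusedSectionVars false

open scoped Manifold ContDiff Topology NNReal
open Filter Set Metric

universe u

namespace Pool.Agent.TH80.OMS

open Pool.Agent.H718R2.G Pool.Agent.W564.SC Pool.Agent.TH290.CL Pool.Agent.TH80.CLX

theorem finite_det {n : ℕ} (B : V n →L[ℝ] V n) :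
    {t : ℝ | (t • B - ContinuousLinearMap.id ℝ (V n)).det = 0}.Finite := by
  have h1 : {μ : ℝ | Module.End.HasEigenvalue ((B : V n →L[ℝ] V n) : V n →ₗ[ℝ] V n) μ}.Finite :=
    Module.End.finite_hasEigenvalue _
  refine (h1.image (fun μ => μ⁻¹)).subset ?_
  intro t ht
  have h2 : ¬ ∀ w, (t • B) w = w → w = 0 := by
    intro h
    exact (det_ne_zero_iff (t • B)).2 h ht
  push Not at h2
  obtain ⟨w, hw, hw0⟩ := h2
  have hw' : t • B w = w := hw
  have ht0 : t ≠ 0 := by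
    rintro rfl
    rw [zero_smul] at hw'
    exact hw0 hw'.symm
  refine ⟨t⁻¹, ?_, inv_inv t⟩
  apply Module.End.hasEigenvalue_of_hasEigenvector (x := w)
  rw [Module.End.hasEigenvector_iff]
  refine ⟨?_, hw0⟩
  rw [Module.End.mem_eigenspace_iff]
  show B w = t⁻¹ • w
  conv_rhs => rw [← hw']
  rw [smul_smul, inv_mul_cancel₀ ht0, one_smul]

theorem smul_pow' {n : ℕ} (c : ℝ) (D : V n →L[ℝ] V n) (l : ℕ) : (c • D) ^ l = c ^ l • D ^ l := by
  induction l with
  | zero => simp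
  | succ l ih =>
    rw [pow_succ, ih, pow_succ c, pow_succ D]
    ext1 w
    show c ^ l • (D ^ l) (c • D w) = (c ^ l * c) • (D ^ l) (D w)
    rw [map_smul, smul_smul]

variable {n : ℕ} {N : Type u} [TopologicalSpace N]

/-- the derivative of an iterate at a fixed point, in a chart -/
theorem fderiv_iter {χ : OpenPartialHomeomorph N (V n)} {p : N} (hp : p ∈ χ.source)
    (hχp : χ p = 0) (g : N → N) (hg : ContinuousAt g p) (hgp : g p = p) {L : V n →L[ℝ] V n}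
    (hL : HasFDerivAt (fun u => χ (g (χ.symm u))) L 0) (l : ℕ) :
    HasFDerivAt (fun u => χ (g^[l] (χ.symm u))) (L ^ l) 0 := by
  have hs : χ.symm 0 = p := by rw [← hχp, χ.left_inv hp]
  have h0 : (0 : V n) ∈ χ.target := by rw [← hχp]; exact χ.map_source hp
  have hfix : ∀ l : ℕ, g^[l] p = p := fun l => Function.iterate_fixed hgp l
  have hcont : ∀ l : ℕ, ContinuousAt (g^[l]) p := by
    intro l
    induction l with
    | zero => exact continuousAt_id
    | succ l ih =>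
      rw [Function.iterate_succ']
      refine ContinuousAt.comp ?_ ih
      rw [hfix]
      exact hg
  induction l with
  | zero =>
    rw [pow_zero]
    have h1 : HasFDerivAt (fun u : V n => u) (1 : V n →L[ℝ] V n) 0 := hasFDerivAt_id _
    refine h1.congr_of_eventuallyEq ?_
    filter_upwards [χ.open_target.mem_nhds h0] with u hu
    exact χ.right_inv hu
  | succ l ih =>
    have h1 : (fun u => χ (g^[l] (χ.symm u))) 0 = 0 := by
      show χ (g^[l] (χ.symm 0)) = 0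
      rw [hs, hfix, hχp]
    have h2 : HasFDerivAt (fun u => χ (g (χ.symm u))) L ((fun u => χ (g^[l] (χ.symm u))) 0) := by
      rw [h1]
      exact hL
    have h3 := h2.comp (0 : V n) ih
    have h4 : L.comp (L ^ l) = L ^ (l + 1) := by
      rw [pow_succ']
      rfl
    rw [h4] at h3
    refine h3.congr_of_eventuallyEq ?_
    have h5 : ∀ᶠ u in 𝓝 (0 : V n), g^[l] (χ.symm u) ∈ χ.source := by
      have h6 : ContinuousAt (fun u => g^[l] (χ.symm u)) 0 := by
        refine ContinuousAt.comp (g := g^[l]) (f := χ.symm) ?_ (χ.continuousAt_symm h0)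
        rw [hs]
        exact hcont l
      apply h6.eventually
      show χ.source ∈ 𝓝 (g^[l] (χ.symm 0))
      rw [hs, hfix]
      exact χ.open_source.mem_nhds hp
    filter_upwards [h5] with u hu
    show χ (g^[l + 1] (χ.symm u)) = χ (g (χ.symm (χ (g^[l] (χ.symm u)))))
    rw [χ.left_inv hu, Function.iterate_succ_apply']

variable [ChartedSpace (V n) N] [IsManifold (𝓡 n) ∞ N] [T2Space N] [CompactSpace N]

theorem dil_step {r : ℕ∞} (hr : 1 ≤ r) (K : ℕ) (hK : 1 ≤ K) (G : DiffM n N r)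
    (Q : DiffM n N r → Prop) (hQ : FO n N r Q) (hQG : Q G)
    (hP : ∀ i ∈ Ioo 0 K, Good n i G univ) (p : N) (hp : ∃ i ∈ Ioo 0 K, G^[i] p = p)
    (hpK : G^[K] p = p) :
    ∃ G' : DiffM n N r, Q G' ∧
      (∀ x, (∃ i ∈ Ioo 0 K, G'^[i] x = x) → ∃ i ∈ Ioo 0 K, G^[i] x = x) ∧
      (∀ x, (∃ i ∈ Ioo 0 K, G^[i] x = x) → ∀ m, G'^[m] x = G^[m] x) ∧ ND n K G' p := by
  obtain ⟨S, hSd⟩ : ∃ S : Set N, S = {x | ∃ i ∈ Ioo 0 K, G^[i] x = x} := ⟨_, rfl⟩
  have hSmem : ∀ x, x ∈ S ↔ ∃ i ∈ Ioo 0 K, G^[i] x = x := fun x => by rw [hSd]; rfl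
  have hSf : S.Finite := by
    have h1 : S = ⋃ i ∈ Ioo 0 K, {x | G^[i] x = x} := by
      ext x
      rw [hSmem]
      simp
    rw [h1]
    exact (finite_Ioo 0 K).biUnion fun i hi => finite_of_good hr G i (hP i hi)
  have hpS : p ∈ S := (hSmem p).2 hp
  have hGS : ∀ x ∈ S, ∀ m, G^[m] x ∈ S := by
    intro x hx m
    obtain ⟨i, hi, hix⟩ := (hSmem x).1 hx
    refine (hSmem _).2 ⟨i, hi, ?_⟩
    rw [← Function.iterate_add_apply, Nat.add_comm, Function.iterate_add_apply, hix]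
  -- the family
  obtain ⟨χ, hg, hχO⟩ := small_chart (n := n) p (S \ {p})ᶜ
    (hSf.subset sdiff_subset).isClosed.isOpen_compl (by simp)
  obtain ⟨F, F', κ, hκ, -, hF, hm, -⟩ := dil_family n
  obtain ⟨Ψ, H, hfam, hH0, hH, hΨ0, hΨc, hΨi, hΨs, hΨo⟩ := push_family r G hg hF
  set A := χ.symm '' closedBall (0 : V n) (1 / 2) with hA
  have hAs : closedBall (0 : V n) (1 / 2) ⊆ χ.target :=
    (closedBall_subset_closedBall (by norm_num)).trans hg.ball
  have hAc : IsClosed A := ((isCompact_closedBall _ _).image_of_continuousOn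
    (χ.continuousOn_symm.mono hAs)).isClosed
  have hSA : ∀ x ∈ S, x ≠ p → x ∉ A := by
    rintro x hx hxp ⟨u, hu, rfl⟩
    exact hχO (χ.map_target (hAs hu)) ⟨hx, hxp⟩
  have hΨp : ∀ s, ‖s‖ < κ → Ψ s p = p := by
    intro s hs
    obtain ⟨h1, h2⟩ := hΨs s p hg.src
    apply χ.injOn h1 hg.src
    rw [h2, hg.zero, hm s 0 hs (by simp), smul_zero]
  have hΨS : ∀ s, ‖s‖ < κ → ∀ x ∈ S, Ψ s x = x := by
    intro s hs x hx
    by_cases hxp : x = p
    · rw [hxp, hΨp s hs]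
    · exact hΨo s x (hSA x hx hxp)
  have hit : ∀ s, ‖s‖ < κ → ∀ x ∈ S, ∀ m, (H s)^[m] x = G^[m] x := by
    intro s hs x hx m
    induction m with
    | zero => rfl
    | succ m ih =>
      rw [Function.iterate_succ_apply', ih, hH, hΨS s hs _ (hGS x hx m),
        Function.iterate_succ_apply' G]
  have hsm : ∀ᶠ s in 𝓝 (0 : V 1), ‖s‖ < κ := by
    have := (continuous_norm (E := V 1)).tendsto 0
    rw [norm_zero] at this
    exact this.eventually (gt_mem_nhds hκ)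
  have hfix : ∀ᶠ s in 𝓝 (0 : V 1), ∀ i ∈ Ioo 0 K, ∀ x, (H s)^[i] x = x → G^[i] x = x := by
    rw [Filter.eventually_all_finite (finite_Ioo 0 K)]
    intro i hi
    have h1 := fix_const hr hfam i (by rw [hH0]; exact hP i hi) (by
      filter_upwards [hsm] with s hs x hx
      rw [hH0] at hx
      rw [hit s hs x ((hSmem x).2 ⟨i, hi, hx⟩), hx])
    rw [hH0] at h1
    exact h1
  have hQe := hQ 1 H hfam (by rw [hH0]; exact hQG)
  -- the minimal period
  obtain ⟨i₀, hi₀d⟩ : ∃ i₀ : ℕ, i₀ = Function.minimalPeriod G p := ⟨_, rfl⟩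
  have hper : Function.IsPeriodicPt G K p := hpK
  have hi₀pos : 0 < i₀ := by
    rw [hi₀d]
    exact hper.minimalPeriod_pos (by omega)
  have hi₀p : G^[i₀] p = p := by
    rw [hi₀d]
    exact Function.isPeriodicPt_minimalPeriod G p
  have hi₀min : ∀ m, 0 < m → m < i₀ → G^[m] p ≠ p := by
    intro m hm0 hmi h
    rw [hi₀d] at hmi
    exact Function.not_isPeriodicPt_of_pos_of_lt_minimalPeriod hm0.ne' hmi h
  obtain ⟨l, hl⟩ : i₀ ∣ K := by
    rw [hi₀d]
    exact hper.minimalPeriod_dvd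
  have hl0 : l ≠ 0 := by
    rintro rfl
    omega
  have hχ0 : (0 : V n) ∈ χ.target := hAs (by simp)
  have hs0 : χ.symm 0 = p := by rw [← hg.zero, χ.left_inv hg.src]
  set D : V n →L[ℝ] V n := fderiv ℝ (fun u => χ (G^[i₀] (χ.symm u))) 0 with hD
  have hDd : HasFDerivAt (fun u => χ (G^[i₀] (χ.symm u))) D 0 :=
    (chart_diff hr G i₀ hg.mem hχ0 (by rw [hs0, hi₀p]; exact hg.src)).hasFDerivAt
  have hDs : ∀ s : V 1, ‖s‖ < κ →
      HasFDerivAt (fun u => χ ((H s)^[i₀] (χ.symm u))) ((1 + s 0 : ℝ) • D) 0 := by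
    intro s hs
    have h1 : ∀ m, 1 ≤ m → m ≤ i₀ → ∀ᶠ y in 𝓝 p, (H s)^[m] y = G^[m] (Ψ s y) := by
      intro m hm1
      induction m with
      | zero => omega
      | succ m ih =>
        intro hmi
        rcases Nat.eq_zero_or_pos m with h0 | h0
        · subst h0
          exact Eventually.of_forall fun y => hH s y
        · have h2 : ContinuousAt (fun y => G^[m] (Ψ s y)) p :=
            ((G.continuous.iterate m).comp (hΨc s)).continuousAt
          have h3 : ∀ᶠ y in 𝓝 p, G^[m] (Ψ s y) ∈ Aᶜ := by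
            apply h2.eventually
            show Aᶜ ∈ 𝓝 (G^[m] (Ψ s p))
            rw [hΨp s hs]
            exact hAc.isOpen_compl.mem_nhds (hSA _ (hGS p hpS m) (hi₀min m h0 (by omega)))
          filter_upwards [ih h0 (by omega), h3] with y hy1 hy2
          rw [Function.iterate_succ_apply', hy1, hH, hΨo s _ hy2, Function.iterate_succ_apply' G]
    have h4 : ∀ᶠ u in 𝓝 (0 : V n), (H s)^[i₀] (χ.symm u) = G^[i₀] (Ψ s (χ.symm u)) := by
      have h5 : Tendsto χ.symm (𝓝 (0 : V n)) (𝓝 p) := by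
        have := χ.continuousAt_symm hχ0
        rwa [ContinuousAt, hs0] at this
      exact h5.eventually (h1 i₀ hi₀pos le_rfl)
    have h6 : ∀ᶠ u in 𝓝 (0 : V n), ‖u‖ < 1 / 4 := by
      have := (continuous_norm (E := V n)).tendsto 0
      rw [norm_zero] at this
      exact this.eventually (gt_mem_nhds (by norm_num))
    have h7 : HasFDerivAt (fun u : V n => (1 + s 0 : ℝ) • u)
        ((1 + s 0 : ℝ) • ContinuousLinearMap.id ℝ (V n)) 0 :=
      (hasFDerivAt_id (𝕜 := ℝ) (0 : V n)).const_smul (1 + s 0 : ℝ)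
    have h8 : HasFDerivAt (fun u => χ (G^[i₀] (χ.symm u))) D ((fun u : V n => (1 + s 0 : ℝ) • u) 0) := by
      show HasFDerivAt (fun u => χ (G^[i₀] (χ.symm u))) D ((1 + s 0 : ℝ) • (0 : V n))
      rw [smul_zero]
      exact hDd
    have h9 := h8.comp (0 : V n) h7
    have h10 : D.comp ((1 + s 0 : ℝ) • ContinuousLinearMap.id ℝ (V n)) = (1 + s 0 : ℝ) • D := by
      ext w
      simp
    rw [h10] at h9
    refine h9.congr_of_eventuallyEq ?_
    filter_upwards [h4, h6] with u hu1 hu2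
    show χ ((H s)^[i₀] (χ.symm u)) = χ (G^[i₀] (χ.symm ((1 + s 0 : ℝ) • u)))
    have hut : u ∈ χ.target := hAs (by
      rw [mem_closedBall, dist_zero_right]
      linarith)
    obtain ⟨k1, k2⟩ := hΨs s (χ.symm u) (χ.map_target hut)
    rw [χ.right_inv hut, hm s u hs hu2] at k2
    rw [hu1, ← k2, χ.left_inv k1]
  have hDK : ∀ s : V 1, ‖s‖ < κ →
      HasFDerivAt (fun u => χ ((H s)^[K] (χ.symm u))) ((1 + s 0 : ℝ) ^ l • D ^ l) 0 := by
    intro s hs
    have h1 : (H s)^[i₀] p = p := by rw [hit s hs p hpS, hi₀p]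
    have h2 := fderiv_iter hg.src hg.zero ((H s)^[i₀])
      (((H s).continuous.iterate i₀).continuousAt) h1 (hDs s hs) l
    rw [← Function.iterate_mul, ← hl] at h2
    have h3 : ((1 + s 0 : ℝ) • D) ^ l = (1 + s 0 : ℝ) ^ l • D ^ l := smul_pow' _ D l
    rw [← h3]
    exact h2
  -- the choice of the parameter
  let e : ℝ → V 1 := fun τ => WithLp.toLp 2 fun _ => τ
  have he0 : e 0 = 0 := by
    ext i
    rfl
  have hec : Continuous e := by
    have : Continuous (fun τ : ℝ => (fun _ : Fin 1 => τ)) := by fun_prop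
    exact (PiLp.continuous_toLp 2 (fun _ : Fin 1 => ℝ)).comp this
  have het : Tendsto e (𝓝[≠] 0) (𝓝 0) := by
    have := hec.tendsto 0
    rw [he0] at this
    exact this.mono_left nhdsWithin_le_nhds
  have hT : ∀ᶠ τ in 𝓝[≠] (0 : ℝ),
      ((1 + τ) ^ l • D ^ l - ContinuousLinearMap.id ℝ (V n)).det ≠ 0 := by
    have h1 : Tendsto (fun τ : ℝ => (1 + τ) ^ l) (𝓝[≠] 0) (𝓝 1) := by
      have h2 : Continuous (fun τ : ℝ => (1 + τ) ^ l) := by fun_prop
      have h3 := h2.tendsto 0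
      simp only [add_zero, one_pow] at h3
      exact h3.mono_left nhdsWithin_le_nhds
    have h4 : ({t : ℝ | (t • D ^ l - ContinuousLinearMap.id ℝ (V n)).det = 0} \ {1})ᶜ ∈
        𝓝 (1 : ℝ) :=
      ((finite_det (D ^ l)).subset sdiff_subset).isClosed.isOpen_compl.mem_nhds (by simp)
    have h5 : ∀ᶠ τ in 𝓝[≠] (0 : ℝ), (1 + τ) ^ l ≠ 1 := by
      have h6 : ∀ᶠ τ in 𝓝[≠] (0 : ℝ), τ ≠ 0 := eventually_mem_nhdsWithin
      have h7 : ∀ᶠ τ in 𝓝[≠] (0 : ℝ), -1 < τ :=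
        mem_nhdsWithin_of_mem_nhds (lt_mem_nhds (by norm_num))
      filter_upwards [h6, h7] with τ h6 h7 h8
      rw [pow_eq_one_iff_of_nonneg (by linarith) hl0] at h8
      exact h6 (by linarith)
    filter_upwards [h1.eventually h4, h5] with τ h8 h9 h10
    exact h8 ⟨h10, h9⟩
  obtain ⟨τ, h1, h2, h3, h4⟩ := ((het.eventually hsm).and ((het.eventually hfix).and
    ((het.eventually hQe).and hT))).exists
  refine ⟨H (e τ), h3, ?_, ?_, ?_⟩
  · rintro x ⟨i, hi, hx⟩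
    exact ⟨i, hi, h2 i hi x hx⟩
  · intro x hx m
    exact hit _ h1 x ((hSmem x).2 hx) m
  · refine ⟨χ, hg.mem, hg.src, ?_⟩
    rw [hg.zero, (hDK _ h1).fderiv]
    exact h4

theorem dil_global {r : ℕ∞} (hr : 1 ≤ r) (K : ℕ) (hK : 1 ≤ K) (m : ℕ) :
    ∀ (G : DiffM n N r) (Q : DiffM n N r → Prop), FO n N r Q → Q G →
      (∀ i ∈ Ioo 0 K, Good n i G univ) →
      {x | (∃ i ∈ Ioo 0 K, G^[i] x = x) ∧ G^[K] x = x ∧ ¬ ND n K G x}.ncard ≤ m →
      ∃ G' : DiffM n N r, Q G' ∧ ∀ x, (∃ i ∈ Ioo 0 K, G'^[i] x = x) → G'^[K] x = x →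
        ND n K G' x := by
  induction m with
  | zero =>
    intro G Q hQ hQG hP hm
    have hfin : {x | (∃ i ∈ Ioo 0 K, G^[i] x = x) ∧ G^[K] x = x ∧ ¬ ND n K G x}.Finite := by
      have h1 : (⋃ i ∈ Ioo 0 K, {x | G^[i] x = x}).Finite :=
        (finite_Ioo 0 K).biUnion fun i hi => finite_of_good hr G i (hP i hi)
      refine h1.subset ?_
      rintro x ⟨⟨i, hi, hx⟩, -⟩
      exact mem_iUnion₂.2 ⟨i, hi, hx⟩
    have h2 := (Set.ncard_eq_zero hfin).1 (Nat.le_zero.1 hm)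
    refine ⟨G, hQG, fun x hx hxK => ?_⟩
    by_contra h
    have h3 : x ∈ {x | (∃ i ∈ Ioo 0 K, G^[i] x = x) ∧ G^[K] x = x ∧ ¬ ND n K G x} := ⟨hx, hxK, h⟩
    rw [h2] at h3
    exact h3
  | succ m ih =>
    intro G Q hQ hQG hP hm
    by_cases hall : ∀ x, (∃ i ∈ Ioo 0 K, G^[i] x = x) → G^[K] x = x → ND n K G x
    · exact ⟨G, hQG, hall⟩
    push Not at hall
    obtain ⟨p, hp, hpK, hpN⟩ := hall
    have hSf : (⋃ i ∈ Ioo 0 K, {x | G^[i] x = x}).Finite :=
      (finite_Ioo 0 K).biUnion fun i hi => finite_of_good hr G i (hP i hi)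
    have hfin : {x | (∃ i ∈ Ioo 0 K, G^[i] x = x) ∧ G^[K] x = x ∧ ¬ ND n K G x}.Finite := by
      refine hSf.subset ?_
      rintro x ⟨⟨i, hi, hx⟩, -⟩
      exact mem_iUnion₂.2 ⟨i, hi, hx⟩
    have hTf : {x | (∃ i ∈ Ioo 0 K, G^[i] x = x) ∧ G^[K] x = x ∧ ND n K G x}.Finite := by
      refine hSf.subset ?_
      rintro x ⟨⟨i, hi, hx⟩, -⟩
      exact mem_iUnion₂.2 ⟨i, hi, hx⟩
    obtain ⟨G₁, hG₁, h1, h2, h3⟩ := dil_step hr K hK G
      (fun G' => (Q G' ∧ ∀ i ∈ Ioo 0 K, Good n i G' univ) ∧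
        Good n K G' {x | (∃ i ∈ Ioo 0 K, G^[i] x = x) ∧ G^[K] x = x ∧ ND n K G x})
      ((hQ.and (FO.all _ (finite_Ioo 0 K) fun i _ => FO.good hr i isCompact_univ)).and
        (FO.good hr K hTf.isCompact))
      ⟨⟨hQG, hP⟩, fun x hx _ => hx.2.2⟩ hP p hp hpK
    apply ih G₁ Q hQ hG₁.1.1 hG₁.1.2
    have hsub : {x | (∃ i ∈ Ioo 0 K, G₁^[i] x = x) ∧ G₁^[K] x = x ∧ ¬ ND n K G₁ x} ⊆
        {x | (∃ i ∈ Ioo 0 K, G^[i] x = x) ∧ G^[K] x = x ∧ ¬ ND n K G x} \ {p} := by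
      rintro x ⟨hx1, hx2, hx3⟩
      have hx4 := h1 x hx1
      have hx5 : G^[K] x = x := by rw [← h2 x hx4, hx2]
      refine ⟨⟨hx4, hx5, fun h => ?_⟩, ?_⟩
      · exact hx3 (hG₁.2 x ⟨hx4, hx5, h⟩ hx2)
      · rintro rfl
        exact hx3 h3
    have h4 := Set.ncard_le_ncard hsub (hfin.subset sdiff_subset)
    have h5 := Set.ncard_sdiff_singleton_lt_of_mem
      (show p ∈ {x | (∃ i ∈ Ioo 0 K, G^[i] x = x) ∧ G^[K] x = x ∧ ¬ ND n K G x} from
        ⟨hp, hpK, hpN⟩) hfin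
    omega

/-- Diffeomorphisms with nondegenerate periodic points of all periods `< K` are dense. -/
theorem ks {r : ℕ∞} (hr : 1 ≤ r) (K : ℕ) : ∀ (G : DiffM n N r) (Q : DiffM n N r → Prop),
    FO n N r Q → Q G → ∃ G' : DiffM n N r, Q G' ∧ ∀ i ∈ Ioo 0 K, Good n i G' univ := by
  induction K with
  | zero =>
    intro G Q _ hQG
    exact ⟨G, hQG, fun i hi => absurd hi.2 (by omega)⟩
  | succ K ih =>
    intro G Q hQ hQG
    obtain ⟨G₁, hG₁, hP₁⟩ := ih G Q hQ hQG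
    rcases Nat.eq_zero_or_pos K with h0 | h0
    · exact ⟨G₁, hG₁, fun i hi => by
        obtain ⟨h1, h2⟩ := hi
        omega⟩
    have hFO : FO n N r (fun G' => Q G' ∧ ∀ i ∈ Ioo 0 K, Good n i G' univ) :=
      hQ.and (FO.all _ (finite_Ioo 0 K) fun i _ => FO.good hr i isCompact_univ)
    obtain ⟨G₂, hG₂, h2⟩ := dil_global hr K h0 _ G₁
      (fun G' => Q G' ∧ ∀ i ∈ Ioo 0 K, Good n i G' univ) hFO ⟨hG₁, hP₁⟩ hP₁ le_rfl
    obtain ⟨G₃, hG₃, h3⟩ := trans_global hr K h0 G₂ h2 _ hFO hG₂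
    refine ⟨G₃, hG₃.1, fun i hi => ?_⟩
    rcases Nat.lt_or_ge i K with h4 | h4
    · exact hG₃.2 i ⟨hi.1, h4⟩
    · have h5 : i = K := by
        have := hi.2
        omega
      rw [h5]
      exact h3

theorem ks_finite {r : ℕ∞} (hr : 1 ≤ r) (K : ℕ) (hK : 1 ≤ K) (G : DiffM n N r)
    (U : Set (DiffM n N r)) (hU : IsOpen[strongTop n N r] U) (hGU : G ∈ U) :
    ∃ G' ∈ U, {x | G'^[K] x = x}.Finite := by
  rcases isEmpty_or_nonempty N with hN | ⟨⟨z⟩⟩
  · exact ⟨G, hGU, Set.toFinite _⟩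
  obtain ⟨G', hG', h⟩ := ks hr (K + 1) G (fun G' => G' ∈ U) (FO.mem hr hU z) hGU
  exact ⟨G', hG', finite_of_good hr G' K (h K ⟨by omega, by omega⟩)⟩

end Pool.Agent.TH80.OMS
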