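import Pool.Agent.H74.G.R_seed8.TH80.OMS.Push

/-!
# Making the periodic points of exact period `K` nondegenerate
-/

set_option autoImplicit false
set_option linter.unusedSectionVars false

open scoped Manifold ContDiff Topology NNReal
open Filter Set Metric

universe u

namespace Pool.Agent.TH80.OMS

open Pool.Agent.H718R2.G Pool.Agent.W564.SC Pool.Agent.TH290.CL Pool.Agent.TH80.CLX

variable {n : ℕ} {N : Type u} [TopologicalSpace N] [ChartedSpace (V n) N]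
  [IsManifold (𝓡 n) ∞ N] [T2Space N]

theorem chart_diff {r : ℕ∞} (hr : 1 ≤ r) (G : DiffM n N r) (k : ℕ)
    {ψ : OpenPartialHomeomorph N (V n)} (hψ : ψ ∈ IsManifold.maximalAtlas (𝓡 n) ∞ N)
    {v : V n} (hv : v ∈ ψ.target) (hv' : G^[k] (ψ.symm v) ∈ ψ.source) :
    DifferentiableAt ℝ (fun u => ψ (G^[k] (ψ.symm u))) v := by
  have h1 := joint_chart hr (const_fam 0 G) k hψ (ψ.map_target hv) hv'
  rw [ψ.right_inv hv] at h1
  have h2 := h1.differentiableAt (by norm_num)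
  have h3 : DifferentiableAt ℝ (fun u : V n => ((0 : V 0), u)) v := by fun_prop
  exact DifferentiableAt.comp (g := fun q : V 0 × V n => ψ (G^[k] (ψ.symm q.2)))
    (f := fun u : V n => ((0 : V 0), u)) v h2 h3

theorem trans_step {r : ℕ∞} (hr : 1 ≤ r) (K : ℕ) (hK : 1 ≤ K)
    {χ : OpenPartialHomeomorph N (V n)} {p : N} (hg : GoodChart n N χ p) (G : DiffM n N r)
    (Q : DiffM n N r → Prop) (hQ : FO n N r Q) (hQG : Q G)
    (hd : ∀ i ∈ Ioo 0 K, ∀ x ∈ χ.symm '' closedBall (0 : V n) (1 / 2),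
      G^[i] x ∈ (χ.symm '' closedBall (0 : V n) (1 / 2))ᶜ) :
    ∃ G' : DiffM n N r, Q G' ∧ Good n K G' (χ.symm '' closedBall (0 : V n) (1 / 8)) := by
  obtain ⟨F, F', κ, hκ, hF, hm⟩ := trans_family n
  obtain ⟨Ψ, H, hfam, hH0, hH, hΨ0, hΨc, hΨi, hΨs, hΨo⟩ := push_family r G hg hF
  set A := χ.symm '' closedBall (0 : V n) (1 / 2) with hA
  have hAs : closedBall (0 : V n) (1 / 2) ⊆ χ.target :=
    (closedBall_subset_closedBall (by norm_num)).trans hg.ball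
  have hΨA : ∀ s, ∀ y ∈ A, Ψ s y ∈ A := by
    intro s y hy
    by_contra h
    have h1 := hΨi s (hΨo s _ h)
    rw [h1] at h
    exact h hy
  have hit : ∀ s, ∀ y ∈ A, ∀ i, 1 ≤ i → i ≤ K → (H s)^[i] y = G^[i] (Ψ s y) := by
    intro s y hy i hi
    induction i with
    | zero => omega
    | succ i ih =>
      intro hiK
      rcases Nat.eq_zero_or_pos i with h0 | h0
      · subst h0
        exact hH s y
      · rw [Function.iterate_succ_apply', ih h0 (by omega), hH, Function.iterate_succ_apply' G,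
          hΨo s _ (hd i ⟨h0, by omega⟩ _ (hΨA s y hy))]
  set Γ : V n → V n := fun v => χ (G^[K] (χ.symm v)) with hΓ
  set crit : Set (V n) := {v | (v ∈ χ.target ∧ G^[K] (χ.symm v) ∈ χ.source) ∧
    (fderiv ℝ Γ v - ContinuousLinearMap.id ℝ (V n)).det = 0} with hcrit
  have hnull : MeasureTheory.volume ((fun v => Γ v - v) '' crit) = 0 := by
    apply MeasureTheory.addHaar_image_eq_zero_of_det_fderivWithin_eq_zero MeasureTheory.volume
      (f' := fun v => fderiv ℝ Γ v - ContinuousLinearMap.id ℝ (V n))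
    · rintro v ⟨⟨hv1, hv2⟩, -⟩
      have h1 := (chart_diff hr G K hg.mem hv1 hv2).hasFDerivAt
      exact (h1.sub (hasFDerivAt_id v)).hasFDerivWithinAt
    · rintro v ⟨-, hv⟩
      exact hv
  have hdense : Dense {s : V n | s ∉ (fun v => Γ v - v) '' crit} := by
    apply MeasureTheory.Measure.dense_of_ae (μ := MeasureTheory.volume)
    exact MeasureTheory.measure_eq_zero_iff_ae_notMem.1 hnull
  have hev : ∀ᶠ s in 𝓝 (0 : V n), Q (H (-s)) ∧ ‖-s‖ < κ := by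
    have h1 : Tendsto (fun s : V n => -s) (𝓝 0) (𝓝 0) := by
      have := (continuous_neg (G := V n)).tendsto 0
      rwa [neg_zero] at this
    have h2 := hQ n H hfam (by rw [hH0]; exact hQG)
    have h3 : ∀ᶠ s in 𝓝 (0 : V n), ‖s‖ < κ := by
      have := (continuous_norm (E := V n)).tendsto 0
      rw [norm_zero] at this
      exact this.eventually (gt_mem_nhds hκ)
    exact h1.eventually (h2.and h3)
  obtain ⟨s, hs, hs1, hs2⟩ := hdense.inter_nhds_nonempty hev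
  refine ⟨H (-s), hs1, ?_⟩
  rintro y ⟨u, hu, rfl⟩ hfy
  have hu' : ‖u‖ < 1 / 4 := by
    rw [mem_closedBall, dist_zero_right] at hu
    linarith
  have hut : ∀ u : V n, ‖u‖ < 1 / 4 → u ∈ χ.target := by
    intro u hu
    apply hAs
    rw [mem_closedBall, dist_zero_right]
    linarith
  have hΨu : ∀ u : V n, ‖u‖ < 1 / 4 → Ψ (-s) (χ.symm u) = χ.symm (u + -s) := by
    intro u hu
    obtain ⟨h1, h2⟩ := hΨs (-s) (χ.symm u) (χ.map_target (hut u hu))
    rw [χ.right_inv (hut u hu), hm _ _ hs2 hu] at h2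
    rw [← h2, χ.left_inv h1]
  have hmemA : ∀ u : V n, ‖u‖ < 1 / 4 → χ.symm u ∈ A := by
    intro u hu
    refine ⟨u, ?_, rfl⟩
    rw [mem_closedBall, dist_zero_right]
    linarith
  have hloc : (fun u => χ ((H (-s))^[K] (χ.symm u))) =ᶠ[𝓝 u] (fun u => Γ (u + -s)) := by
    have h1 : ∀ᶠ u' in 𝓝 u, ‖u'‖ < 1 / 4 := continuous_norm.continuousAt.eventually
      (gt_mem_nhds hu')
    filter_upwards [h1] with u' hu''
    rw [hit _ _ (hmemA u' hu'') K hK le_rfl, hΨu u' hu'']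
  refine ⟨χ, hg.mem, χ.map_target (hut u hu'), ?_⟩
  rw [χ.right_inv (hut u hu')]
  have h2 : fderiv ℝ (fun u => χ ((H (-s))^[K] (χ.symm u))) u = fderiv ℝ Γ (u + -s) := by
    rw [hloc.fderiv_eq, fderiv_comp_add_right]
  rw [h2]
  intro hdet
  apply hs
  have h3 := hit (-s) _ (hmemA u hu') K hK le_rfl
  rw [hfy, hΨu u hu'] at h3
  have h4 := hΨs (-s) (χ.symm u) (χ.map_target (hut u hu'))
  rw [χ.right_inv (hut u hu'), hm _ _ hs2 hu'] at h4
  have h5 : u + -s ∈ χ.target := by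
    rw [← h4.2]
    exact χ.map_source h4.1
  refine ⟨u + -s, ⟨⟨h5, ?_⟩, hdet⟩, ?_⟩
  · rw [← h3]
    exact χ.map_target (hut u hu')
  · show χ (G^[K] (χ.symm (u + -s))) - (u + -s) = s
    rw [← h3, χ.right_inv (hut u hu')]
    abel

variable [CompactSpace N]

theorem local_step {r : ℕ∞} (hr : 1 ≤ r) (K : ℕ) (hK : 1 ≤ K) (G₀ : DiffM n N r)
    (hS : ∀ x, (∃ i ∈ Ioo 0 K, G₀^[i] x = x) → G₀^[K] x = x → ND n K G₀ x) (x : N) :
    ∃ B : Set N, IsCompact B ∧ B ∈ 𝓝 x ∧ ∃ P : DiffM n N r → Prop, FO n N r P ∧ P G₀ ∧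
      ∀ G', P G' → ∀ Q : DiffM n N r → Prop, FO n N r Q → Q G' →
        ∃ G'' : DiffM n N r, Q G'' ∧ Good n K G'' B := by
  by_cases hx : G₀^[K] x = x → ND n K G₀ x
  · have h1 := nd_open hr (const_fam 0 G₀) K x hx
    have h2 : ∀ᶠ y in 𝓝 x, G₀^[K] y = y → ND n K G₀ y := by
      have h3 : Tendsto (fun y : N => ((0 : V 0), y)) (𝓝 x) (𝓝 ((0 : V 0), x)) := by
        have : Continuous (fun y : N => ((0 : V 0), y)) := by fun_prop
        exact this.tendsto x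
      exact h3.eventually h1
    obtain ⟨B, ⟨hB, hBc⟩, hB2⟩ := (compact_basis_nhds x).mem_iff.1 h2
    refine ⟨B, hBc, hB, fun G => Good n K G B, FO.good hr K hBc, fun y hy => hB2 hy,
      fun G' hG' Q _ hQG' => ⟨G', hQG', hG'⟩⟩
  · push Not at hx
    obtain ⟨hxK, hnd⟩ := hx
    have hne : ∀ i ∈ Ioo 0 K, G₀^[i] x ≠ x := fun i hi h => hnd (hS x ⟨i, hi, h⟩ hxK)
    have h1 : ∀ i ∈ Finset.Ioo 0 K, ∃ O : Set N, IsOpen O ∧ x ∈ O ∧ ∀ y ∈ O, G₀^[i] y ∉ O := by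
      intro i hi
      obtain ⟨U1, U2, hU1, hU2, h1, h2, hd⟩ := t2_separation (hne i (by simpa using hi))
      refine ⟨U2 ∩ G₀^[i] ⁻¹' U1, hU2.inter (hU1.preimage (G₀.continuous.iterate i)), ⟨h2, h1⟩,
        ?_⟩
      rintro y ⟨-, hy⟩ ⟨hy2, -⟩
      exact Set.disjoint_left.1 hd hy hy2
    choose! O hO using h1
    obtain ⟨χ, hχ, hχO⟩ := small_chart (n := n) x (⋂ i ∈ Finset.Ioo 0 K, O i)
      (isOpen_biInter_finset fun i hi => (hO i hi).1)
      (mem_iInter₂.2 fun i hi => (hO i hi).2.1)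
    have hAs : closedBall (0 : V n) (1 / 2) ⊆ χ.target :=
      (closedBall_subset_closedBall (by norm_num)).trans hχ.ball
    have hcA : ∀ ρ : ℝ, ρ ≤ 1 → IsCompact (χ.symm '' closedBall (0 : V n) ρ) := by
      intro ρ hρ
      exact (isCompact_closedBall _ _).image_of_continuousOn
        (χ.continuousOn_symm.mono ((closedBall_subset_closedBall hρ).trans hχ.ball))
    have hAO : ∀ y ∈ χ.symm '' closedBall (0 : V n) (1 / 2), ∀ i ∈ Finset.Ioo 0 K, y ∈ O i := by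
      rintro y ⟨u, hu, rfl⟩ i hi
      exact mem_iInter₂.1 (hχO (χ.map_target (hAs hu))) i hi
    refine ⟨χ.symm '' closedBall (0 : V n) (1 / 8), hcA _ (by norm_num), ?_,
      fun G => ∀ i ∈ Ioo 0 K, ∀ x ∈ χ.symm '' closedBall (0 : V n) (1 / 2),
        G^[i] x ∈ (χ.symm '' closedBall (0 : V n) (1 / 2))ᶜ, ?_, ?_, ?_⟩
    · have h2 : χ.source ∩ χ ⁻¹' (closedBall (0 : V n) (1 / 8)) ∈ 𝓝 x := by
        refine inter_mem (χ.open_source.mem_nhds hχ.src) ?_
        apply (χ.continuousAt hχ.src).preimage_mem_nhds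
        rw [hχ.zero]
        exact closedBall_mem_nhds _ (by norm_num)
      filter_upwards [h2] with y hy
      exact ⟨χ y, hy.2, χ.left_inv hy.1⟩
    · apply FO.all (Ioo 0 K) (finite_Ioo 0 K)
        (Q := fun i G => ∀ x ∈ χ.symm '' closedBall (0 : V n) (1 / 2),
          G^[i] x ∈ (χ.symm '' closedBall (0 : V n) (1 / 2))ᶜ)
      intro i _
      exact FO.maps i (hcA _ (by norm_num)) (hcA _ (by norm_num)).isClosed.isOpen_compl
    · intro i hi y hy hy2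
      have hi' : i ∈ Finset.Ioo 0 K := by simpa using hi
      exact (hO i hi').2.2 y (hAO y hy i hi') (hAO _ hy2 i hi')
    · intro G' hG' Q hQ hQG'
      exact trans_step hr K hK hχ G' Q hQ hQG' hG'

theorem trans_global {r : ℕ∞} (hr : 1 ≤ r) (K : ℕ) (hK : 1 ≤ K) (G₀ : DiffM n N r)
    (hS : ∀ x, (∃ i ∈ Ioo 0 K, G₀^[i] x = x) → G₀^[K] x = x → ND n K G₀ x)
    (Q : DiffM n N r → Prop) (hQ : FO n N r Q) (hQG : Q G₀) :
    ∃ G' : DiffM n N r, Q G' ∧ Good n K G' univ := by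
  have h : ∃ B : Set N, IsCompact B ∧ univ ⊆ B ∧ ∃ P : DiffM n N r → Prop, FO n N r P ∧ P G₀ ∧
      ∀ G', P G' → ∀ Q : DiffM n N r → Prop, FO n N r Q → Q G' →
        ∃ G'' : DiffM n N r, Q G'' ∧ Good n K G'' B := by
    refine isCompact_univ.induction_on (p := fun W : Set N => ∃ B : Set N, IsCompact B ∧ W ⊆ B ∧
      ∃ P : DiffM n N r → Prop, FO n N r P ∧ P G₀ ∧
      ∀ G', P G' → ∀ Q : DiffM n N r → Prop, FO n N r Q → Q G' →
        ∃ G'' : DiffM n N r, Q G'' ∧ Good n K G'' B) ?_ ?_ ?_ ?_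
    · refine ⟨∅, isCompact_empty, Subset.rfl, fun _ => True, fun _ _ _ _ => by simp, trivial,
        fun G' _ Q _ hQG' => ⟨G', hQG', fun x hx => absurd hx (notMem_empty x)⟩⟩
    · rintro s t hst ⟨B, hB, htB, h⟩
      exact ⟨B, hB, hst.trans htB, h⟩
    · rintro s t ⟨B, hB, hsB, P, hP, hPG, h⟩ ⟨B', hB', htB, P', hP', hPG', h'⟩
      refine ⟨B ∪ B', hB.union hB', union_subset_union hsB htB, fun G => P G ∧ P' G, hP.and hP',
        ⟨hPG, hPG'⟩, ?_⟩
      intro G' hG' Q hQ hQG'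
      obtain ⟨G₁, hG₁, hgood⟩ := h G' hG'.1 (fun G => Q G ∧ P' G) (hQ.and hP') ⟨hQG', hG'.2⟩
      obtain ⟨G₂, hG₂, hgood'⟩ := h' G₁ hG₁.2 (fun G => Q G ∧ Good n K G B)
        (hQ.and (FO.good hr K hB)) ⟨hG₁.1, hgood⟩
      refine ⟨G₂, hG₂.1, ?_⟩
      rintro x (hx | hx)
      · exact hG₂.2 x hx
      · exact hgood' x hx
    · intro x _
      obtain ⟨B, hB, hBx, h⟩ := local_step hr K hK G₀ hS x
      exact ⟨B, by rwa [nhdsWithin_univ], B, hB, Subset.rfl, h⟩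
  obtain ⟨B, hB, hBu, P, hP, hPG, h⟩ := h
  obtain ⟨G', hG', hgood⟩ := h G₀ hPG Q hQ hQG
  exact ⟨G', hG', fun x _ => hgood x (hBu (mem_univ x))⟩

end Pool.Agent.TH80.OMS
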